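import Pool.Agent.H72.ET.Targets

/-! Board bf_modules, module CVN: the elements with a relation of degree at most `d` in a linear space
form few linear subspaces. -/

open Finset Module

namespace Pool.Agent.H19.ET

open Pool.Agent.H72.BF Pool.Agent.H72.ET

open Classical in
theorem cvn_aux (hSTN : T_STN) (r d M : ℕ) : ∀ n : ℕ, ∃ s : ℕ, ∀ (K F : Type) [Field K] [CharZero K]
    [IsAlgClosed K] [Field F] [Algebra K F] (t : Fin r → F), AlgebraicIndependent K t → ∀ y : Fin M → F,
    ∀ U : Submodule K (Fin M → K), finrank K U ≤ n →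
    ∃ Ws : Finset (Submodule K (Fin M → K)), Ws.card ≤ s ∧
      (∀ W ∈ Ws, ∀ v ∈ W, RelN K t d (∑ j, algebraMap K F (v j) * y j)) ∧
      ∀ v ∈ U, RelN K t d (∑ j, algebraMap K F (v j) * y j) → ∃ W ∈ Ws, v ∈ W := by
  intro n
  induction n with
  | zero =>
    refine ⟨1, ?_⟩
    intro K F _ _ _ _ _ t ht y U hU
    have hbot : U = ⊥ := Submodule.finrank_eq_zero.1 (Nat.le_zero.1 hU)
    by_cases h0 : RelN K t d (∑ j, algebraMap K F ((0 : Fin M → K) j) * y j)
    · refine ⟨{⊥}, by simp, ?_, ?_⟩
      · intro W hW v hv
        rw [Finset.mem_singleton] at hW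
        subst hW
        rw [Submodule.mem_bot] at hv
        subst hv
        exact h0
      · intro v hv _
        rw [hbot, Submodule.mem_bot] at hv
        exact ⟨⊥, by simp, by rw [hv]; exact Submodule.zero_mem _⟩
    · refine ⟨∅, by simp, by simp, ?_⟩
      intro v hv hrel
      rw [hbot, Submodule.mem_bot] at hv
      subst hv
      exact absurd hrel h0
  | succ n ih =>
    obtain ⟨s, hs⟩ := ih
    obtain ⟨b, hb⟩ := hSTN r d (n + 1)
    refine ⟨b * s + s + 1, ?_⟩
    intro K F _ _ _ _ _ t ht y U hU
    -- the span of the good vectors of `U`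
    let S : Set (Fin M → K) := {v | v ∈ U ∧ RelN K t d (∑ j, algebraMap K F (v j) * y j)}
    let U' : Submodule K (Fin M → K) := Submodule.span K S
    have hU'U : U' ≤ U := Submodule.span_le.2 fun v hv => hv.1
    have hfr : finrank K U' ≤ n + 1 := le_trans (Submodule.finrank_mono hU'U) hU
    by_cases hlt : finrank K U' ≤ n
    · obtain ⟨Ws, h1, h2, h3⟩ := hs K F t ht y U' hlt
      refine ⟨Ws, by omega, h2, fun v hv hrel => h3 v (Submodule.subset_span ⟨hv, hrel⟩) hrel⟩
    · have heq : finrank K U' = n + 1 := by omega
      -- a basis in `S`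
      obtain ⟨c, hcS, hcspan, hcli⟩ := exists_linearIndependent K S
      have hcfin : c.Finite := hcli.setFinite
      have hcf : Fintype c := hcfin.fintype
      have hcard : Fintype.card c = n + 1 := by
        have h1 : finrank K (Submodule.span K (Set.range ((↑) : c → Fin M → K))) =
            Fintype.card c := finrank_span_eq_card hcli
        rw [Subtype.range_coe, hcspan] at h1
        rw [← h1]
        exact heq
      let e : Fin (n + 1) ≃ c := (Fintype.equivFinOfCardEq hcard).symm
      let u : Fin (n + 1) → Fin M → K := fun i => (e i : Fin M → K)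
      have huS : ∀ i, u i ∈ S := fun i => hcS (e i).2
      have huli : LinearIndependent K u := hcli.comp e e.injective
      have huspan : Submodule.span K (Set.range u) = U' := by
        have : Set.range u = c := by
          ext v
          constructor
          · rintro ⟨i, rfl⟩
            exact (e i).2
          · intro hv
            exact ⟨e.symm ⟨v, hv⟩, by simp [u]⟩
        rw [this, hcspan]
      let w : Fin (n + 1) → F := fun i => ∑ j, algebraMap K F (u i j) * y j
      -- the linear map `a ↦ ∑ a_i u_i`
      let Φ : (Fin (n + 1) → K) →ₗ[K] (Fin M → K) := Fintype.linearCombination K u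
      have hΦ : ∀ a, Φ a = ∑ i, a i • u i := fun a => Fintype.linearCombination_apply K u a
      have hval : ∀ a : Fin (n + 1) → K, ∑ j, algebraMap K F (Φ a j) * y j =
          ∑ i, algebraMap K F (a i) * w i := by
        intro a
        simp only [hΦ, w, Finset.sum_apply, Pi.smul_apply, smul_eq_mul, map_sum, map_mul,
          Finset.sum_mul, Finset.mul_sum]
        rw [Finset.sum_comm]
        refine Finset.sum_congr rfl fun i _ => Finset.sum_congr rfl fun j _ => ?_
        ring
      have hrange : ∀ v ∈ U', ∃ a, Φ a = v := by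
        intro v hv
        rw [← huspan] at hv
        have : v ∈ LinearMap.range Φ := by
          rw [Fintype.range_linearCombination]
          exact hv
        exact this
      rcases hb K F t ht w (fun i => (huS i).2) with hall | ⟨Hs, hHcard, hHtop, hHcov⟩
      · refine ⟨{U'}, by simp, ?_, ?_⟩
        · intro W hW v hv
          rw [Finset.mem_singleton] at hW
          subst hW
          obtain ⟨a, rfl⟩ := hrange v hv
          rw [hval]
          exact hall a
        · intro v hv hrel
          exact ⟨U', by simp, Submodule.subset_span ⟨hv, hrel⟩⟩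
      · -- the images of the proper subspaces
        have hsmall : ∀ Hm ∈ Hs, finrank K (Hm.map Φ) ≤ n := by
          intro Hm hHm
          have h1 : finrank K (Hm.map Φ) ≤ finrank K Hm := Submodule.finrank_map_le Φ Hm
          have h2 : finrank K Hm < finrank K (Fin (n + 1) → K) :=
            Submodule.finrank_lt (hHtop Hm hHm)
          rw [Module.finrank_fin_fun] at h2
          omega
        let fam : Submodule K (Fin (n + 1) → K) → Finset (Submodule K (Fin M → K)) := fun Hm =>
          if h : finrank K (Hm.map Φ) ≤ n then (hs K F t ht y (Hm.map Φ) h).choose else ∅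
        have hfam : ∀ Hm ∈ Hs, (fam Hm).card ≤ s ∧
            (∀ W ∈ fam Hm, ∀ v ∈ W, RelN K t d (∑ j, algebraMap K F (v j) * y j)) ∧
            ∀ v ∈ Hm.map Φ, RelN K t d (∑ j, algebraMap K F (v j) * y j) →
              ∃ W ∈ fam Hm, v ∈ W := by
          intro Hm hHm
          simp only [fam, dif_pos (hsmall Hm hHm)]
          exact (hs K F t ht y (Hm.map Φ) (hsmall Hm hHm)).choose_spec
        refine ⟨Hs.biUnion fam, ?_, ?_, ?_⟩
        · have h1 : (Hs.biUnion fam).card ≤ Hs.card * s :=
            Finset.card_biUnion_le_card_mul _ _ _ fun Hm hHm => (hfam Hm hHm).1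
          have h2 : Hs.card * s ≤ b * s := Nat.mul_le_mul_right s hHcard
          omega
        · intro W hW v hv
          obtain ⟨Hm, hHm, hW'⟩ := Finset.mem_biUnion.1 hW
          exact (hfam Hm hHm).2.1 W hW' v hv
        · intro v hv hrel
          obtain ⟨a, rfl⟩ := hrange v (Submodule.subset_span ⟨hv, hrel⟩)
          obtain ⟨Hm, hHm, haH⟩ := hHcov a (by rw [← hval]; exact hrel)
          obtain ⟨W, hW, hvW⟩ := (hfam Hm hHm).2.2 (Φ a) (Submodule.mem_map_of_mem haH) hrel
          exact ⟨W, Finset.mem_biUnion.2 ⟨Hm, hHm, hW⟩, hvW⟩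

/-- CVN: the elements with a relation of degree at most `d` in a linear space form few linear
subspaces -/
theorem pf_CVN (hSTN : T_STN) : T_CVN := by
  intro r d M
  obtain ⟨s, hs⟩ := cvn_aux hSTN r d M M
  refine ⟨s, ?_⟩
  intro K F _ _ _ _ _ t ht y
  obtain ⟨Ws, h1, h2, h3⟩ := hs K F t ht y ⊤ (by
    rw [finrank_top, Module.finrank_fin_fun])
  exact ⟨Ws, h1, h2, fun v hrel => h3 v Submodule.mem_top hrel⟩

end Pool.Agent.H19.ET
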