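import Pool.Agent.H72.ET.Targets
import Pool.Agent.H35.BF.NRM

/-! Board et_modules, module NRN: the norm form, any number of variables (copy of H35/BF/NRM). -/

open Polynomial Finset Filter

namespace Pool.Agent.H19.ET

open Pool.Agent.H72.BF Pool.Agent.H72.ET Pool.Agent.H35.BF.NR

theorem tdr_natDegree {K : Type} [Field K] {r : ℕ} {R : Polynomial (MvPolynomial (Fin r) K)}
    {D : ℕ} (h : TDr R D) : R.natDegree ≤ D := by
  rw [natDegree_le_iff_coeff_eq_zero]
  intro n hn
  ext k
  rw [MvPolynomial.coeff_zero]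
  exact h n k (by omega)

theorem tdr_lead {K : Type} [Field K] {r : ℕ} {R : Polynomial (MvPolynomial (Fin r) K)}
    {D : ℕ} (h : TDr R D) : R.leadingCoeff.totalDegree ≤ D := by
  refine Finset.sup_le fun s hs => ?_
  by_contra hlt
  push Not at hlt
  rw [MvPolynomial.mem_support_iff] at hs
  apply hs
  apply h
  have h3 : (s.sum fun _ e => e) = s.degree := by
    rw [Finsupp.degree_apply]
    rfl
  omega

theorem prime_td {K : Type} [Field K] {r : ℕ} {π : MvPolynomial (Fin r) K} (hπ : Prime π) :
    1 ≤ π.totalDegree := by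
  by_contra hlt
  have h0 : π.totalDegree = 0 := by omega
  have h1 := (MvPolynomial.totalDegree_eq_zero_iff_eq_C (p := π)).1 h0
  apply hπ.not_isUnit
  rw [h1]
  apply IsUnit.map
  rw [isUnit_iff_ne_zero]
  intro h2
  rw [h2, map_zero] at h1
  exact hπ.ne_zero h1

theorem pf_NRN (hRNI : T_RNI) : T_NRN := by
  classical
  intro r D m
  refine ⟨D ^ m + D ^ m * (m * D), ?_⟩
  intro K F _ _ _ _ _ t ht w hw
  let Ω := AlgebraicClosure F
  let et : MvPolynomial (Fin r) K →+* F := evt t
  have hevt : Function.Injective et := ht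
  let ψ : MvPolynomial (Fin r) K →+* Ω := (algebraMap F Ω).comp et
  have hψ : Function.Injective ψ := (algebraMap F Ω).injective.comp hevt
  choose R hR0 hRD hRw using fun j => (hRNI K F r t D (w j)).mp (hw j)
  let L := IntermediateField.adjoin K (Set.range t)
  have hczL : CharZero L := charZero_of_injective_algebraMap (algebraMap K L).injective
  let tL : Fin r → L := fun i =>
    ⟨t i, IntermediateField.subset_adjoin K _ (Set.mem_range_self i)⟩
  let θ : MvPolynomial (Fin r) K →+* L :=
    (MvPolynomial.aeval tL : MvPolynomial (Fin r) K →ₐ[K] L).toRingHom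
  have hθ : ∀ p, ((θ p : L) : F) = et p := by
    intro p
    have : (L.val.comp (MvPolynomial.aeval tL)) = MvPolynomial.aeval t := by
      apply MvPolynomial.algHom_ext
      intro i
      simp [tL]
    exact congrArg (fun g : MvPolynomial (Fin r) K →ₐ[K] F => g p) this
  have hθinj : Function.Injective θ := by
    intro a b hab
    apply hevt
    rw [← hθ, ← hθ, hab]
  have hint : ∀ j, IsIntegral L (w j) := by
    intro j
    refine isAlgebraic_iff_isIntegral.mp ⟨(R j).map θ, ?_, ?_⟩
    · exact (Polynomial.map_ne_zero_iff hθinj).mpr (hR0 j)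
    · rw [aeval_def, eval₂_map]
      have : (algebraMap L F).comp θ = et := RingHom.ext hθ
      rw [this]
      exact hRw j
  let E := IntermediateField.adjoin L (Set.range w)
  have hfd : FiniteDimensional L E := by
    have := (Set.finite_range w).to_subtype
    exact IntermediateField.finiteDimensional_adjoin (fun x hx => by
      obtain ⟨i, rfl⟩ := hx
      exact hint i)
  let wE : Fin m → E := fun j => ⟨w j, IntermediateField.subset_adjoin _ _ ⟨j, rfl⟩⟩
  let e := Fintype.card (E →ₐ[L] Ω)
  let σ : Fin e ≃ (E →ₐ[L] Ω) := (Fintype.equivFin _).symm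
  let ω : Fin e → Fin m → Ω := fun i j => σ i (wE j)
  have hLΩ : ∀ p, algebraMap L Ω (θ p) = ψ p := by
    intro p
    rw [IsScalarTower.algebraMap_apply L F Ω]
    change algebraMap F Ω ((θ p : L) : F) = _
    rw [hθ]; rfl
  have hroot : ∀ (z : E) (Q : Polynomial (MvPolynomial (Fin r) K)), Q.eval₂ et (z : F) = 0 →
      ∀ i, Q.eval₂ ψ (σ i z) = 0 := by
    intro z Q hQ i
    have h1 : Q.eval₂ ((algebraMap L E).comp θ) z = 0 := by
      apply Subtype.val_injective
      have h2 := Polynomial.hom_eval₂ Q ((algebraMap L E).comp θ) E.val.toRingHom z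
      have h3 : E.val.toRingHom.comp ((algebraMap L E).comp θ) = et := RingHom.ext hθ
      rw [h3] at h2
      exact h2.trans hQ
    have h2 := Polynomial.hom_eval₂ Q ((algebraMap L E).comp θ) (σ i).toRingHom z
    have h3 : (σ i).toRingHom.comp ((algebraMap L E).comp θ) = ψ := by
      apply RingHom.ext
      intro p
      change σ i (algebraMap L E (θ p)) = ψ p
      rw [AlgHom.commutes, hLΩ]
    rw [h1, map_zero, h3] at h2
    exact h2.symm
  have hωinj : ∀ i i', i ≠ i' → ω i ≠ ω i' := by
    intro i i' hii h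
    apply hii
    apply σ.injective
    refine IntermediateField.algHom_ext_of_eq_adjoin L (S := E) rfl ?_
    rintro x ⟨j, rfl⟩
    exact congrFun h j
  have hωroot : ∀ i j, (R j).eval₂ ψ (ω i j) = 0 := fun i j => hroot (wE j) (R j) (hRw j) i
  have he : e ≤ D ^ m := by
    have h1 : (Finset.univ.image ω).card = e := by
      rw [Finset.card_image_of_injective _ (fun i i' h => by_contra fun hne => hωinj i i' hne h),
        Finset.card_univ, Fintype.card_fin]
    rw [← h1]
    have h2 : Finset.univ.image ω ⊆ Fintype.piFinset (fun j => ((R j).map ψ).roots.toFinset) := by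
      intro x hx
      obtain ⟨i, _, rfl⟩ := Finset.mem_image.mp hx
      rw [Fintype.mem_piFinset]
      intro j
      rw [Multiset.mem_toFinset, mem_roots ((Polynomial.map_ne_zero_iff hψ).mpr (hR0 j)), IsRoot,
        eval_map]
      exact hωroot i j
    refine le_trans (Finset.card_le_card h2) ?_
    rw [Fintype.card_piFinset]
    refine le_trans (Finset.prod_le_pow_card _ _ D fun j _ => ?_) (by simp)
    exact le_trans (Multiset.toFinset_card_le _) (le_trans (card_roots' _)
      (le_trans natDegree_map_le (tdr_natDegree (hRD j))))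
  -- the coefficients
  obtain ⟨N, hN⟩ := norm_form L E Ω m wE e σ
  have hN' : N.map (MvPolynomial.map (algebraMap L Ω)) = NN ω := hN
  have hfrac : ∀ n α, ∃ p q : MvPolynomial (Fin r) K, ((NN ω).coeff n).coeff α = ψ p / ψ q := by
    intro n α
    rw [← hN', Polynomial.coeff_map, MvPolynomial.coeff_map]
    obtain ⟨a, s, hrs⟩ := (IntermediateField.mem_adjoin_range_iff K _ _).mp
      ((N.coeff n).coeff α).2
    refine ⟨a, s, ?_⟩
    rw [IsScalarTower.algebraMap_apply L F Ω]
    change algebraMap F Ω (((N.coeff n).coeff α : L) : F) = _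
    rw [hrs, map_div₀]
    rfl
  let P : MvPolynomial (Fin r) K := ∏ j, (R j).leadingCoeff
  have hP0 : P ≠ 0 := Finset.prod_ne_zero_iff.mpr fun j _ => leadingCoeff_ne_zero.mpr (hR0 j)
  have hPd : P.totalDegree ≤ m * D := by
    refine le_trans (MvPolynomial.totalDegree_finsetProd _ _)
      (le_trans (Finset.sum_le_sum fun j _ => tdr_lead (hRD j)) ?_)
    simp
  have hI : ∃ H : Polynomial (MvPolynomial (Fin m) (MvPolynomial (Fin r) K)),
      H.map (MvPolynomial.map ψ) = C (MvPolynomial.C (ψ (P ^ e))) * NN ω := by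
    let _ : Algebra (MvPolynomial (Fin r) K) Ω := ψ.toAlgebra
    refine clear (A := MvPolynomial (Fin r) K) (Ω := Ω) hψ m e ω P ?_ hfrac
    intro i j
    change ψ.IsIntegralElem (ψ P * ω i j)
    have h1 : P = (∏ j' ∈ Finset.univ.erase j, (R j').leadingCoeff) * (R j).leadingCoeff :=
      (Finset.prod_erase_mul _ _ (Finset.mem_univ j)).symm
    rw [h1, map_mul, mul_assoc]
    have h2 : ψ.IsIntegralElem (ψ (R j).leadingCoeff * ω i j) :=
      ψ.isIntegralElem_leadingCoeff_mul (R j) (ω i j) (hωroot i j)
    exact RingHom.IsIntegralElem.mul ψ (ψ.isIntegralElem_map) h2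
  have hex : ∃ n, ∃ q : MvPolynomial (Fin r) K, q ≠ 0 ∧ q.totalDegree = n ∧
      ∃ H : Polynomial (MvPolynomial (Fin m) (MvPolynomial (Fin r) K)),
      H.map (MvPolynomial.map ψ) = C (MvPolynomial.C (ψ q)) * NN ω :=
    ⟨_, P ^ e, pow_ne_zero _ hP0, rfl, hI⟩
  obtain ⟨g, hg0, hgn, G, hG⟩ := Nat.find_spec hex
  have hmin : ∀ q : MvPolynomial (Fin r) K, q ≠ 0 →
      (∃ H : Polynomial (MvPolynomial (Fin m) (MvPolynomial (Fin r) K)),
      H.map (MvPolynomial.map ψ) = C (MvPolynomial.C (ψ q)) * NN ω) →
      g.totalDegree ≤ q.totalDegree := by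
    intro q hq0 hq
    rw [hgn]
    exact Nat.find_min' hex ⟨q, hq0, rfl, hq⟩
  refine ⟨Ω, inferInstance, inferInstance, e, ω, g, G, ?_, ?_, hg0, ?_, hωinj, hG, ?_, ?_⟩
  · exact le_trans he (Nat.le_add_right _ _)
  · refine le_trans (hmin _ (pow_ne_zero _ hP0) hI) ?_
    refine le_trans (MvPolynomial.totalDegree_pow _ _) ?_
    exact le_trans (Nat.mul_le_mul he hPd) (Nat.le_add_left _ _)
  · let ι : E →ₐ[L] Ω := (IsScalarTower.toAlgHom L F Ω).comp E.val
    refine ⟨σ.symm ι, fun j => ?_⟩
    change σ (σ.symm ι) (wE j) = _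
    rw [Equiv.apply_symm_apply]
    rfl
  · intro π hπ hc
    have h1 : ∀ n α, π ∣ (G.coeff n).coeff α := by
      intro n α
      rw [← Ideal.mem_span_singleton, ← Ideal.Quotient.eq_zero_iff_mem]
      have := congrArg (fun P => MvPolynomial.coeff α (Polynomial.coeff P n)) hc
      simp only [Polynomial.coeff_map, MvPolynomial.coeff_map, Polynomial.coeff_zero,
        MvPolynomial.coeff_zero] at this
      exact this
    have hlead : (G.coeff e).coeff 0 = g := by
      apply hψ
      have h2 := congrArg (fun P => MvPolynomial.coeff 0 (Polynomial.coeff P e)) hG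
      simp only [Polynomial.coeff_map, MvPolynomial.coeff_map, coeff_C_mul,
        MvPolynomial.coeff_C_mul] at h2
      have h3 := (NN_monic ω).coeff_natDegree
      rw [NN_natDegree] at h3
      rw [h2, h3]
      simp
    obtain ⟨g', hg'⟩ : π ∣ g := by
      rw [← hlead]; exact h1 _ _
    have hg'0 : g' ≠ 0 := by
      rintro rfl
      rw [mul_zero] at hg'
      exact hg0 hg'
    have h4 : ∃ H : Polynomial (MvPolynomial (Fin m) (MvPolynomial (Fin r) K)),
      H.map (MvPolynomial.map ψ) = C (MvPolynomial.C (ψ g')) * NN ω := by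
      apply Pool.Agent.H35.BF.NR.lifts
      intro n α
      obtain ⟨a, ha⟩ := h1 n α
      refine ⟨a, ?_⟩
      have hx0 : ψ π ≠ 0 := by
        intro h
        exact hπ.ne_zero (hψ (by rw [h, map_zero]))
      apply mul_left_cancel₀ hx0
      rw [← map_mul, ← ha]
      have h2 := congrArg (fun P => MvPolynomial.coeff α (Polynomial.coeff P n)) hG
      simp only [Polynomial.coeff_map, MvPolynomial.coeff_map, coeff_C_mul,
        MvPolynomial.coeff_C_mul] at h2
      rw [h2, hg', map_mul, coeff_C_mul, MvPolynomial.coeff_C_mul, mul_assoc]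
    have h5 := hmin g' hg'0 h4
    rw [hg', MvPolynomial.totalDegree_mul_of_isDomain hπ.ne_zero hg'0] at h5
    have h6 := prime_td hπ
    omega
  · intro v Q hQ i
    have h1 : ((∑ j, algebraMap K E (v j) * wE j : E) : F) = ∑ j, algebraMap K F (v j) * w j := by
      push_cast
      rfl
    have h2 := hroot (∑ j, algebraMap K E (v j) * wE j) Q (by rw [h1]; exact hQ) i
    rw [map_sum] at h2
    have h3 : ∀ j, σ i (algebraMap K E (v j) * wE j) = algebraMap F Ω (algebraMap K F (v j)) * ω i j := by
      intro j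
      rw [map_mul]
      congr 1
      have h4 : algebraMap K E (v j) = algebraMap L E (algebraMap K L (v j)) := rfl
      rw [h4, AlgHom.commutes]
      rfl
    rw [Finset.sum_congr rfl fun j _ => h3 j] at h2
    exact h2

end Pool.Agent.H19.ET
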