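import Pool.Agent.H72.ET.Targets
import Pool.Agent.H14.BF.RFI

/-! Board et_modules, module RNI: relations as polynomials in the last variable. -/

open Polynomial Finset

namespace Pool.Agent.H19.ET

open Pool.Agent.H72.BF Pool.Agent.H72.ET Pool.Agent.H14.BF

theorem rni_key {K F : Type} [Field K] [Field F] [Algebra K F] {r : ℕ} (t : Fin r → F) (z : F)
    (R : MvPolynomial (Fin (r + 1)) K) :
    (MvPolynomial.finSuccEquiv K r R).eval₂ (evt t) z =
      MvPolynomial.aeval (Fin.cons z t : Fin (r + 1) → F) R := by
  induction R using MvPolynomial.induction_on with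
  | C a => simp [MvPolynomial.finSuccEquiv_apply]
  | add p q hp hq => rw [map_add, Polynomial.eval₂_add, hp, hq, map_add]
  | mul_X p i hp =>
    rw [map_mul, Polynomial.eval₂_mul, hp, map_mul]
    congr 1
    refine Fin.cases ?_ (fun i => ?_) i
    · simp [MvPolynomial.finSuccEquiv_X_zero]
    · simp [MvPolynomial.finSuccEquiv_X_succ]

theorem pf_RNI : T_RNI := by
  intro K F _ _ _ r t d z
  constructor
  · intro h
    obtain ⟨P, hP0, hPd, hPe⟩ := rfi_poly h
    refine ⟨P, hP0, ?_, hPe⟩
    intro n m hnm
    by_cases hc : P.coeff n = 0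
    · rw [hc, MvPolynomial.coeff_zero]
    · have h1 := hPd n hc
      by_contra hne
      have h2 := MvPolynomial.le_totalDegree (MvPolynomial.mem_support_iff.2 hne)
      have h3 : (m.sum fun _ e => e) = m.degree := by
        rw [Finsupp.degree_apply]
        rfl
      rw [h3] at h2
      omega
  · rintro ⟨R, hR0, hRd, hRe⟩
    set Q0 : MvPolynomial (Fin (r + 1)) K := (MvPolynomial.finSuccEquiv K r).symm R with hQ0
    have hfs : MvPolynomial.finSuccEquiv K r Q0 = R := by
      rw [hQ0]
      exact (MvPolynomial.finSuccEquiv K r).apply_symm_apply R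
    refine ⟨MvPolynomial.rename (finRotate (r + 1)).symm Q0, ?_, ?_, ?_⟩
    · intro h0
      have h1 : Q0 = 0 := by
        apply MvPolynomial.rename_injective (finRotate (r + 1)).symm
          (finRotate (r + 1)).symm.injective
        rw [h0, map_zero]
      apply hR0
      rw [← hfs, h1, map_zero]
    · refine le_trans (MvPolynomial.totalDegree_rename_le _ _) ?_
      refine Finset.sup_le fun s hs => ?_
      by_contra hlt
      push Not at hlt
      rw [MvPolynomial.mem_support_iff] at hs
      apply hs
      have h2 : s = Finsupp.cons (s 0) (Finsupp.tail s) := (Finsupp.cons_tail s).symm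
      have h1 : (s.sum fun _ e => e) = s 0 + (Finsupp.tail s).degree := by
        rw [Finsupp.sum_fintype _ _ (fun _ => rfl), Fin.sum_univ_succ,
          Finsupp.degree_eq_sum]
        rfl
      rw [h2, ← MvPolynomial.finSuccEquiv_coeff_coeff, hfs]
      apply hRd
      omega
    · rw [MvPolynomial.aeval_rename, Fin.snoc_eq_cons_rotate]
      have h1 : ((fun i => (Fin.cons z t : Fin (r + 1) → F) (finRotate (r + 1) i)) ∘
          (finRotate (r + 1)).symm) = (Fin.cons z t : Fin (r + 1) → F) := by
        funext i
        simp
      have h2 := rni_key t z Q0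
      rw [hfs, hRe] at h2
      rw [h1, h2]

end Pool.Agent.H19.ET
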