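import Pool.Agent.H72.ET.Targets

/-! Board et_modules, module UAC: ultraproducts of algebraically closed fields. -/

open Finset Filter

namespace Pool.Agent.H19.ET

open Pool.Agent.H72.BF Pool.Agent.H72.ET Pool.Agent.H67.BF Pool.Agent.H67.BF.GCR

theorem pf_UAC : T_UAC := by
  classical
  intro K _ _
  refine IsAlgClosed.of_exists_root _ ?_
  intro p hmon hirr
  have hdeg : p.natDegree ≠ 0 := by
    intro h0
    have h1 := Polynomial.natDegree_pos_iff_degree_pos.2 (Polynomial.degree_pos_of_irreducible hirr)
    omega
  choose c hc using fun n => mk_surj K (p.coeff n)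
  -- the lift
  let P : ∀ j, Polynomial (K j) := fun j =>
    Polynomial.X ^ p.natDegree + ∑ i ∈ range p.natDegree, Polynomial.C (c i j) * Polynomial.X ^ i
  have hlt : ∀ j, (∑ i ∈ range p.natDegree, Polynomial.C (c i j) * Polynomial.X ^ i :
      Polynomial (K j)).degree < p.natDegree := by
    intro j
    refine lt_of_le_of_lt (Polynomial.degree_sum_le _ _) ?_
    rw [Finset.sup_lt_iff]
    · intro i hi
      refine lt_of_le_of_lt (Polynomial.degree_C_mul_X_pow_le _ _) ?_
      exact_mod_cast Finset.mem_range.1 hi
    · exact WithBot.bot_lt_coe _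
  have hPd : ∀ j, (P j).degree ≠ 0 := by
    intro j h
    have h1 : (P j).degree = p.natDegree := by
      show (Polynomial.X ^ p.natDegree + _ : Polynomial (K j)).degree = _
      rw [Polynomial.degree_add_eq_left_of_degree_lt]
      · rw [Polynomial.degree_X_pow]
      · rw [Polynomial.degree_X_pow]
        exact hlt j
    rw [h1] at h
    exact hdeg (by exact_mod_cast h)
  choose a ha using fun j => IsAlgClosed.exists_root (P j) (hPd j)
  refine ⟨mk K a, ?_⟩
  have h1 : Polynomial.eval (mk K a) p =
      mk K (a ^ p.natDegree + ∑ i ∈ range p.natDegree, c i * a ^ i) := by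
    rw [Polynomial.eval_eq_sum_range, Finset.sum_range_succ, map_add, map_pow, map_sum, add_comm]
    congr 1
    · rw [show p.coeff p.natDegree = 1 from hmon, one_mul]
    · refine Finset.sum_congr rfl fun i _ => ?_
      rw [map_mul, map_pow, hc]
  rw [h1, mk_zero_iff]
  refine Eventually.of_forall fun j => ?_
  have h2 := ha j
  rw [Polynomial.IsRoot.def] at h2
  simp only [P, Polynomial.eval_add, Polynomial.eval_pow, Polynomial.eval_X,
    Polynomial.eval_finsetSum, Polynomial.eval_mul, Polynomial.eval_C] at h2
  rw [Pi.add_apply, Finset.sum_apply]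
  exact h2

end Pool.Agent.H19.ET
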